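import Pool.Agent.Lib.MP_011f3a_lc.LM.A.DV
import Pool.Agent.Lib.MP_011f3a_lc.LM.A.TreeB
import Pool.Agent.Lib.MP_011f3a_lc.LM.B.Wt

/-! # Fusion orders on conditions, the capturing properties (module D-DEFS) -/

namespace Pool.Agent.Lib.MP_011f3a_lc.LM

variable {Ω : Type} [LinearOrder Ω] [WellFoundedLT Ω] {md : Md} {ζ ξ η : Ω}

/-- `p' ≤_k p`: at every coordinate `ξ` the tree `p'(ξ)` is smaller than `p(ξ)` in the order `TLe (k ξ)` -/
def PLe (k : Ω →₀ ℕ) (p' p : Cn Ω md ζ) : Prop :=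
  ∀ ξ < ζ, FA (tr ξ p') fun G => TLe (k ξ) (ev (p'.co ξ) G) (ev (p.co ξ) G)

/-- all trees of `p` are normal -/
def NR (p : Cn Ω md ζ) : Prop := ∀ ξ < ζ, FA (tr ξ p) fun G => Nm (ev (p.co ξ) G)

/-- the number of possibilities left by `k` -/
noncomputable def NK (ζ : Ω) (k : Ω →₀ ℕ) : ℕ := ∏ ξ ∈ k.support.filter (· < ζ), (KS (k ξ)).card

variable (md) in
/-- countably many open dense sets can be captured by some `p' ≤_k p` -/
def CW (ζ : Ω) (k : Ω →₀ ℕ) : Prop :=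
  ∀ (p : Cn Ω md ζ) (D : ℕ → Set (Cn Ω md ζ)), (∀ n, Opn (D n)) → (∀ n, DnsB (D n) p) →
    ∃ p', PLe k p' p ∧ ∀ n, Cap p' (D n)

variable (md) in
/-- a name of an element of a finite set is decided up to `NK ζ k` possibilities by some `p' ≤_k p` -/
def LP (ζ : Ω) (k : Ω →₀ ℕ) : Prop :=
  ∀ (p : Cn Ω md ζ) (I : Type) [Finite I] (y : Flt (Cn Ω md ζ) → I), DV y →
    ∃ p', PLe k p' p ∧ ∃ S : Finset I, S.card ≤ NK ζ k ∧ FA p' fun G => y G ∈ S

/-- a finite family of properties of conditions which are closed downwards and countably glueable -/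
structure Phi {I : Type} (Φ : I → Cn Ω md ζ → Prop) : Prop where
  fin : Finite I
  mono : ∀ c p q, q ≤ p → Φ c p → Φ c q
  glue : ∀ c r (ρ : ℕ → Cn Ω md ζ), (∀ i, Φ c (ρ i)) → (∀ q ≤ r, ∃ q' ≤ q, ∃ i, q' ≤ ρ i) → Φ c r
  dense : ∀ p, ∃ q ≤ p, ∃ c, Φ c q

end Pool.Agent.Lib.MP_011f3a_lc.LM
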