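import Pool.Agent.Lib.MP_011f3a_lc.LM.D.Loc
import Pool.Agent.Lib.MP_011f3a_lc.LM.K.Seq

/-! # The induction for `LP` (module D-LPS)

Strong induction on `ζ`; first replace `p` by a normal condition (`exists_norm`). If `k` vanishes below `ζ`: decide `y` (`NK = 1`). Otherwise `ξ` is the last coordinate `< ζ` with `k ξ ≠ 0`, `Φ c q` iff `FA q (y G = c)`;
`exists_stepD` gives `A`; `anti_dv` gives a name `y'` of the finite set `{c r | r ∈ KS (k ξ)}` (the image of `KS m` under the third component; compose `anti_dv` with it) on `P_ξ`. Induction hypothesis for `ξ`, `tr ξ p`, `y'`: `w₁` and a finite set `𝒮` of at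
most `NK ξ k` finite sets; discard those with more than `(KS m).card` elements (they are not values); `CW` gives `w₂ ≤_k w₁` capturing `A`; `step_mix` gives `r`; `S` is the union of `𝒮`. `FA r (y G ∈ S)`: `FA_local`; if `v' ≤ r`, `tr ξ v' ≤ x.1`, `v' ≤ x.2.1`, `x ∈ A`, then
below `v'` we are below some `ρ r`, so `y G = c r ∈ y' (rs ξ G) ∈ 𝒮`. `NK ξ k * (KS (k ξ)).card ≤ NK ζ k`. -/

namespace Pool.Agent.Lib.MP_011f3a_lc.LM

variable {Ω : Type} [LinearOrder Ω] [WellFoundedLT Ω] {md : Md} {ζ ξ η : Ω}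

theorem phi_dec {I : Type} [Finite I] {y : Flt (Cn Ω md ζ) → I} (hy : DV y) :
    Phi fun (c : I) (q : Cn Ω md ζ) => FA q fun G => y G = c where
  fin := inferInstance
  mono := fun _ _ _ hqp h => h.mono hqp
  glue := fun c r ρ h hr => FA_local fun q hq => by
    obtain ⟨q', hq', i, hi⟩ := hr q hq
    exact ⟨q', hq', (h i).mono hi⟩
  dense := fun p => by
    obtain ⟨v, hv, a, ha⟩ := hy p
    exact ⟨v, hv, a, ha⟩

theorem nk_mul {k : Ω →₀ ℕ} (hξ : ξ < ζ) (hk : ∀ η, ξ < η → η < ζ → k η = 0) (h : k ξ ≠ 0) :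
    NK ζ k = NK ξ k * (KS (k ξ)).card := by
  have h1 : k.support.filter (· < ζ) = insert ξ (k.support.filter (· < ξ)) := by
    ext η
    simp only [Finset.mem_insert, Finset.mem_filter, Finsupp.mem_support_iff]
    constructor
    · rintro ⟨h2, h3⟩
      rcases lt_trichotomy η ξ with h4 | h4 | h4
      · exact Or.inr ⟨h2, h4⟩
      · exact Or.inl h4
      · exact absurd (hk η h4 h3) h2
    · rintro (h2 | h2)
      · subst h2
        exact ⟨h, hξ⟩
      · exact ⟨h2.1, h2.2.trans hξ⟩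
  have h2 : ξ ∉ k.support.filter (· < ξ) := by simp
  unfold NK
  rw [h1, Finset.prod_insert h2, mul_comm]

private theorem LPs_main (ζ : Ω) (k : Ω →₀ ℕ) (hi : ∀ ξ < ζ, LP md ξ k) (p : Cn Ω md ζ) (hn : NR p)
    (I : Type) [Finite I] (y : Flt (Cn Ω md ζ) → I) (hy : DV y) :
    ∃ p', PLe k p' p ∧ ∃ S : Finset I, S.card ≤ NK ζ k ∧ FA p' fun G => y G ∈ S := by
  classical
  by_cases hk0 : ∀ η < ζ, k η = 0
  · obtain ⟨v, hv, a, ha⟩ := hy p
    refine ⟨v, ple_of_le hv hk0, {a}, ?_, ha.imp fun G _ h => by simp [h]⟩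
    have h1 : k.support.filter (· < ζ) = ∅ := by
      refine Finset.filter_eq_empty_iff.2 fun η hη h => ?_
      exact (Finsupp.mem_support_iff.1 hη) (hk0 η h)
    unfold NK
    rw [h1, Finset.prod_empty, Finset.card_singleton]
  · push Not at hk0
    obtain ⟨η0, hη0, hkη0⟩ := hk0
    have hne : (k.support.filter (· < ζ)).Nonempty :=
      ⟨η0, Finset.mem_filter.2 ⟨Finsupp.mem_support_iff.2 hkη0, hη0⟩⟩
    obtain ⟨ξ, hξm, hξmax⟩ := Finset.exists_max_image _ (fun η => η) hne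
    obtain ⟨hξs, hξ⟩ := Finset.mem_filter.1 hξm
    have hkξ : k ξ ≠ 0 := Finsupp.mem_support_iff.1 hξs
    have hk : ∀ η, ξ < η → η < ζ → k η = 0 := by
      intro η h1 h2
      by_contra h3
      exact not_lt.2 (hξmax η (Finset.mem_filter.2 ⟨Finsupp.mem_support_iff.2 h3, h2⟩)) h1
    obtain ⟨A, hA1, hA2⟩ := exists_stepD hξ (phi_dec hy) (cw_all ξ 0) p (hn ξ hξ) (k ξ)
      (Nat.pos_of_ne_zero hkξ)
    obtain ⟨y', hy', hyA⟩ := anti_dv hA2
    have hz : DV fun G => (KS (k ξ)).image (y' G).2 := hy'.comp fun a => (KS (k ξ)).image a.2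
    obtain ⟨w1, hw1, 𝒮, h𝒮, hF⟩ := hi ξ hξ (tr ξ p) (Finset I) _ hz
    obtain ⟨w2, hw2, hcap⟩ := cw_all ξ k w1 (fun _ => {c | ∃ x ∈ A, c ≤ x.1})
      (fun _ c hc c' hc' => by
        obtain ⟨x, hx, hcx⟩ := hc
        exact ⟨x, hx, hc'.trans hcx⟩)
      (fun _ q hq => by
        obtain ⟨r, hr, x, hx, hrx⟩ := hA2.pre q (hq.trans hw1.le)
        exact ⟨r, hr, x, hx, hrx⟩)
    obtain ⟨r, hr, hrw, hr2, _⟩ := step_mix hξ p hk hA1 hA2 w2 (hw2.trans hw1) (hcap 0)
    refine ⟨r, hr, (𝒮.filter fun F => F.card ≤ (KS (k ξ)).card).biUnion id, ?_, ?_⟩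
    · rw [nk_mul hξ hk hkξ]
      refine (Finset.card_biUnion_le_card_mul _ _ (KS (k ξ)).card fun F hF => ?_).trans ?_
      · exact (Finset.mem_filter.1 hF).2
      · exact Nat.mul_le_mul_right _ ((Finset.card_filter_le _ _).trans h𝒮)
    · have hF' : FA r fun G => (KS (k ξ)).image (y' (rs ξ G)).2 ∈ 𝒮 := by
        refine FA.proj (Ψ := fun G => (KS (k ξ)).image (y' G).2 ∈ 𝒮) hξ.le ?_
        rw [hrw]
        exact hF.mono hw2.le
      refine FA_local fun v hv => ?_
      obtain ⟨v', hv', x, hx, hx1, hx2⟩ := hr2 v hv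
      obtain ⟨_, _, _, ρ, hρ1, hρ2⟩ := hA1 x hx
      obtain ⟨v'', hv'', s, hs, hvs⟩ := hρ2 v' hx2
      refine ⟨v'', hv''.trans hv', FA.imp₂ ((hρ1 s hs).mono hvs)
        (hF'.mono (hv''.trans (hv'.trans hv))) fun G hG h1 h2 => ?_⟩
      have h3 : y' (rs ξ G) = x.2 := hyA x hx _
        ((rs ξ G).up _ (tr_mem_rs hG ξ) _ ((tr_mono hv'' ξ).trans hx1))
      rw [h3] at h2
      rw [Finset.mem_biUnion]
      refine ⟨_, Finset.mem_filter.2 ⟨h2, Finset.card_image_le⟩, ?_⟩
      rw [h1]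
      exact Finset.mem_image_of_mem _ hs

theorem lp_all (ζ : Ω) (k : Ω →₀ ℕ) : LP md ζ k := by
  induction ζ using WellFoundedLT.induction with
  | ind ζ ih =>
    intro p I _ y hy
    obtain ⟨p0, h1, h2, _⟩ := exists_norm p
    obtain ⟨p', h3, S, h4, h5⟩ := LPs_main ζ k ih p0 h2 I y hy
    exact ⟨p', h3.trans (h1 k), S, h4, h5⟩

end Pool.Agent.Lib.MP_011f3a_lc.LM

/-! # Stable conditions (module K-STAB)

`mi p l` = the least cardinality of a finite set `S` such that some `p' ≤_k p` forces `Rx l x ∈ S` (exists and is `≤ NK ζ k` by `lp_all`; `y G = Rx l (x G)` as an element of the finite type of the lists of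
length `l`, or of `Fin l → Bool`). It increases if `p` is replaced by some `p' ≤_k p` (`PLe.trans`) and if `l` increases (`S` is replaced by `S.image (List.take l)`). Choose `p*`, `l*` with maximal value. -/

namespace Pool.Agent.Lib.MP_011f3a_lc.LM

variable {Ω : Type} [LinearOrder Ω] [WellFoundedLT Ω] {md : Md} {ζ ξ η : Ω} {k : Ω →₀ ℕ} {x : Flt (Cn Ω md ζ) → Set ℕ}

/-- `p` forces that the initial segment of `x` of length `l` belongs to `S` -/
def Fx (x : Flt (Cn Ω md ζ) → Set ℕ) (l : ℕ) (p : Cn Ω md ζ) (S : Finset (List Bool)) : Prop :=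
  FA p fun G => Rx l (x G) ∈ S

theorem dv_Rx (hx : ∀ n, BPr fun G => n ∈ x G) (l : ℕ) : DV fun G => Rx l (x G) := by
  classical
  have h1 : ∀ i : ℕ, DV fun G => decide (i ∈ x G) := by
    intro i w
    obtain ⟨v, hv, h | h⟩ := hx i w
    · exact ⟨v, hv, true, h.imp fun G _ h2 => decide_eq_true h2⟩
    · exact ⟨v, hv, false, h.imp fun G _ h2 => decide_eq_false h2⟩
  intro w
  obtain ⟨v, hv, a, h2⟩ := DV.list h1 l w
  refine ⟨v, hv, a, h2.imp fun G _ h3 => ?_⟩
  rw [← h3]
  unfold Rx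
  congr!

theorem exists_Fx (hx : ∀ n, BPr fun G => n ∈ x G) (k : Ω →₀ ℕ) (p : Cn Ω md ζ) (l : ℕ) :
    ∃ p', PLe k p' p ∧ ∃ S, S.card ≤ NK ζ k ∧ Fx x l p' S := by
  classical
  have h1 : DV fun G => (fun i : Fin l => (Rx l (x G)).getD (i : ℕ) false) :=
    (dv_Rx hx l).comp fun s => (fun i : Fin l => s.getD (i : ℕ) false)
  obtain ⟨p', hp', S, hS, hF⟩ := lp_all ζ k p (Fin l → Bool) _ h1
  refine ⟨p', hp', S.image List.ofFn, Finset.card_image_le.trans hS, hF.imp fun G _ h2 => ?_⟩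
  refine Finset.mem_image.2 ⟨_, h2, ?_⟩
  apply List.ext_getElem
  · simp [length_Rx]
  · intro i h3 h4
    rw [List.getElem_ofFn]
    simp only
    rw [List.getD_eq_getElem _ _ h4]

theorem Fx.mono {l : ℕ} {p p' : Cn Ω md ζ} {S : Finset (List Bool)} (h : Fx x l p S) (hp : p' ≤ p) : Fx x l p' S :=
  FA.mono h hp

theorem Fx.take {l l' : ℕ} {p : Cn Ω md ζ} {S : Finset (List Bool)} (h : Fx x l' p S) (hl : l ≤ l') :
    Fx x l p (S.image (List.take l)) :=
  FA.imp h fun G _ h1 => Finset.mem_image.2 ⟨_, h1, take_Rx hl (x G)⟩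

private theorem stab_max {α : Type*} (f : α → ℕ) (B : ℕ) (hf : ∀ l, f l ≤ B) (a₀ : α) : ∃ L, ∀ l, f l ≤ f L := by
  by_contra hc
  push Not at hc
  have key : ∀ m, ∃ l, m ≤ f l := by
    intro m
    induction m with
    | zero => exact ⟨a₀, Nat.zero_le _⟩
    | succ m ih =>
      obtain ⟨l, hl⟩ := ih
      obtain ⟨l', hl'⟩ := hc l
      exact ⟨l', by omega⟩
  obtain ⟨l, hl⟩ := key (B + 1)
  have := hf l
  omega

theorem exists_stable (hx : ∀ n, BPr fun G => n ∈ x G) (k : Ω →₀ ℕ) (p : Cn Ω md ζ) :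
    ∃ p', PLe k p' p ∧ ∃ L M, M ≤ NK ζ k ∧ ∀ q, PLe k q p' → ∀ l ≥ L,
      (∃ q', PLe k q' q ∧ ∃ S, S.card = M ∧ Fx x l q' S) ∧ ∀ S, Fx x l q S → M ≤ S.card := by
  classical
  have hex : ∀ (q : Cn Ω md ζ) (l : ℕ), ∃ c, ∃ q', PLe k q' q ∧ ∃ S, S.card = c ∧ Fx x l q' S := by
    intro q l
    obtain ⟨q', h1, S, -, h2⟩ := exists_Fx hx k q l
    exact ⟨S.card, q', h1, S, rfl, h2⟩
  let f : Cn Ω md ζ → ℕ → ℕ := fun q l => Nat.find (hex q l)
  have f1 : ∀ q l, ∃ q', PLe k q' q ∧ ∃ S, S.card = f q l ∧ Fx x l q' S := fun q l => Nat.find_spec (hex q l)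
  have f2 : ∀ q l q' S, PLe k q' q → Fx x l q' S → f q l ≤ S.card := fun q l q' S h1 h2 =>
    Nat.find_min' (hex q l) ⟨q', h1, S, rfl, h2⟩
  have f3 : ∀ q l, f q l ≤ NK ζ k := by
    intro q l
    obtain ⟨q', h1, S, h2, h3⟩ := exists_Fx hx k q l
    exact (f2 q l q' S h1 h3).trans h2
  have f4 : ∀ q q' l l', PLe k q' q → l ≤ l' → f q l ≤ f q' l' := by
    intro q q' l l' h1 h2
    obtain ⟨r, h3, S, h4, h5⟩ := f1 q' l'
    have h6 := f2 q l r _ (h3.trans h1) (h5.take h2)
    exact (h6.trans Finset.card_image_le).trans (le_of_eq h4)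
  obtain ⟨⟨⟨p', hp'⟩, L⟩, hmax⟩ := stab_max (α := {q : Cn Ω md ζ // PLe k q p} × ℕ) (fun z => f z.1.1 z.2) (NK ζ k)
    (fun z => f3 _ _) (⟨p, PLe.refl k p⟩, 0)
  refine ⟨p', hp', L, f p' L, f3 _ _, fun q hq l hl => ?_⟩
  have h1 : f q l = f p' L := le_antisymm (hmax (⟨q, hq.trans hp'⟩, l)) (f4 _ _ _ _ hq hl)
  refine ⟨?_, fun S hS => ?_⟩
  · rw [← h1]
    exact f1 q l
  · rw [← h1]
    exact f2 q l q S (PLe.refl k q) hS

end Pool.Agent.Lib.MP_011f3a_lc.LM

/-! # Preparation, the recursion step (module K-PREPS)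

`p` is the stable condition of K/Stab.lean for `k'` (`k' β = 1`, `k' = 0` below `β`). An entry `y` of the list number `j`: `y.r` with `PLe k' y.r p`, a set `y.S` of `M` sequences of length `L + j` with `Fx x (L + j) y.r y.S`, a child number
`y.n`, and `y.ρ` = the condition `y.r` with the tree at `β` restricted to the nodes comparable with `a ++ [y.n]`. `prep_step`: last entry `y` (or `p` for the empty list), `c' ≤ c`: join `c'` and `y.r` to `r₁` (`PLe k' r₁ y.r`: `ple_join`, below `β` `k'` is `0`), then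
`exists_stable` gives `r₂` with `PLe k' r₂ r₁` and `S`, `S.card = M`, `Fx x (L + j + 1) r₂ S`; the subset `S'` of the elements of `S` whose restriction is in `y.S` has the same property, so `S' = S` by the minimality (second part of
`hst`); also `S.image (take (L + j)) = y.S` (it is contained in `y.S` and has at least `M` elements). Then decide a number `n` larger than the previous one with `a ++ [n] ∈ r₂(β)` (`a` is the first splitting node of `r₂(β)`: `TLe.st` with `m = 1`), join, and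
`exists_restr`. In the Laver case the stem of the restricted tree is `a ++ [n]` (`Laver.st_abv`). -/

namespace Pool.Agent.Lib.MP_011f3a_lc.LM

variable {Ω : Type} [LinearOrder Ω] [WellFoundedLT Ω] {md : Md} {ζ β η : Ω}

/-- the objects chosen in the recursion -/
structure PE (Ω : Type) [LinearOrder Ω] [WellFoundedLT Ω] (md : Md) (ζ : Ω) where
  /-- the condition -/
  r : Cn Ω md ζ
  /-- the restricted condition -/
  ρ : Cn Ω md ζ
  /-- the possible initial segments of `x` -/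
  S : Finset (List Bool)
  /-- the child number -/
  n : ℕ

/-- the hypotheses: `p` is stable -/
structure PrH (β : Ω) (k' : Ω →₀ ℕ) (p : Cn Ω md ζ) (x : Flt (Cn Ω md ζ) → Set ℕ) (w : Cn Ω md β) (a : List ℕ) (L M : ℕ) : Prop where
  lt : β < ζ
  bx : ∀ n, BPr fun G => n ∈ x G
  kb : k' β = 1
  kl : ∀ ξ < β, k' ξ = 0
  nr : NR p
  hw : w ≤ tr β p
  ha : FA w fun G => St (ev (p.co β) G) a
  st : ∀ q, PLe k' q p → ∀ l ≥ L, (∃ q', PLe k' q' q ∧ ∃ S, S.card = M ∧ Fx x l q' S) ∧ ∀ S, Fx x l q S → M ≤ S.card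

/-- the condition `c` accepts the list `h` -/
structure POk (β : Ω) (k' : Ω →₀ ℕ) (p : Cn Ω md ζ) (x : Flt (Cn Ω md ζ) → Set ℕ) (a : List ℕ) (L M : ℕ) (c : Cn Ω md β)
    (h : List (PE Ω md ζ)) : Prop where
  le : ∀ y ∈ h, c ≤ tr β y.r
  ple : ∀ y ∈ h, PLe k' y.r p
  cmb : ∀ y ∈ h, CmbOk p a c y.n y.ρ
  rle : ∀ y ∈ h, y.ρ ≤ y.r ∧ ∀ η, β < η → y.ρ.co η = y.r.co η
  val : ∀ (j : ℕ) (hj : j < h.length), Fx x (L + j) (h[j]).r (h[j]).S ∧ (h[j]).S.card = M ∧ ∀ σ ∈ (h[j]).S, σ.length = L + j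
  res : ∀ (j : ℕ) (hj : j + 1 < h.length), (h[j + 1]).S.image (List.take (L + j)) = (h[j]).S
  dec : ∀ (j : ℕ) (hj : j + 1 < h.length), PLe k' (h[j + 1]).r (h[j]).r
  inc : h.Pairwise fun y y' => y.n < y'.n

variable {k' : Ω →₀ ℕ} {p : Cn Ω md ζ} {x : Flt (Cn Ω md ζ) → Set ℕ} {w : Cn Ω md β} {a : List ℕ} {L M : ℕ}

theorem POk.mono {c c' : Cn Ω md β} {h : List (PE Ω md ζ)} (hk : POk β k' p x a L M c h) (hc : c' ≤ c) :
    POk β k' p x a L M c' h where
  le := fun y hy => hc.trans (hk.le y hy)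
  ple := hk.ple
  cmb := fun y hy => (hk.cmb y hy).mono hc
  rle := hk.rle
  val := hk.val
  res := hk.res
  dec := hk.dec
  inc := hk.inc

theorem pok_nil (c : Cn Ω md β) : POk β k' p x a L M c [] where
  le := fun y hy => absurd hy List.not_mem_nil
  ple := fun y hy => absurd hy List.not_mem_nil
  cmb := fun y hy => absurd hy List.not_mem_nil
  rle := fun y hy => absurd hy List.not_mem_nil
  val := fun j hj => absurd hj (Nat.not_lt_zero j)
  res := fun j hj => absurd hj (Nat.not_lt_zero _)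
  dec := fun j hj => absurd hj (Nat.not_lt_zero _)
  inc := List.Pairwise.nil

/-- the last condition of the list -/
private theorem preps_last (hp : PrH β k' p x w a L M) (c : Cn Ω md β) (h : List (PE Ω md ζ)) (hc : c ≤ w)
    (hk : POk β k' p x a L M c h) : ∃ q : Cn Ω md ζ, PLe k' q p ∧ c ≤ tr β q ∧
      ∀ (j : ℕ) (hj : j < h.length), j + 1 = h.length → q = (h[j]).r := by
  rcases Nat.eq_zero_or_pos h.length with h0 | h0
  · exact ⟨p, PLe.refl _ _, hc.trans hp.hw, fun j hj => absurd hj (by omega)⟩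
  · have hl : h.length - 1 < h.length := by omega
    refine ⟨(h[h.length - 1]).r, hk.ple _ (List.getElem_mem hl), hk.le _ (List.getElem_mem hl), fun j hj h1 => ?_⟩
    have h2 : j = h.length - 1 := by omega
    subst h2
    rfl

/-- a number larger than all the numbers in the list -/
private theorem preps_bound (h : List (PE Ω md ζ)) : ∃ m, ∀ y ∈ h, y.n < m := by
  induction h with
  | nil => exact ⟨0, fun y hy => absurd hy List.not_mem_nil⟩
  | cons z h ih =>
    obtain ⟨m, hm⟩ := ih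
    refine ⟨max m (z.n + 1), fun y hy => ?_⟩
    rcases List.mem_cons.1 hy with h1 | h1
    · subst h1
      exact lt_of_lt_of_le (Nat.lt_succ_self _) (le_max_right _ _)
    · exact lt_of_lt_of_le (hm y h1) (le_max_left _ _)

theorem prep_step (hp : PrH β k' p x w a L M) (c : Cn Ω md β) (h : List (PE Ω md ζ)) (hc : c ≤ w) (hk : POk β k' p x a L M c h) :
    ∃ c' ≤ c, ∃ y, POk β k' p x a L M c' (h ++ [y]) := by
  classical
  obtain ⟨q, hqp, hcq, hql⟩ := preps_last hp c h hc hk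
  obtain ⟨m, hm⟩ := preps_bound h
  -- join with `c`
  obtain ⟨r₁, hr₁c, hr₁co, hr₁, -⟩ := exists_join hp.lt.le q c hcq
  have h1q : PLe k' r₁ q := by
    refine ple_join (ξ := β) hp.lt.le (ple_of_le ?_ hp.kl) hr₁co
    rw [hr₁c]
    exact hcq
  have h1p : PLe k' r₁ p := h1q.trans hqp
  -- the next set
  obtain ⟨⟨r₂, hr₂, S, hSc, hS⟩, -⟩ := hp.st r₁ h1p (L + h.length) (Nat.le_add_right _ _)
  have h2p : PLe k' r₂ p := hr₂.trans h1p
  have hmin := (hp.st r₂ h2p (L + h.length) (Nat.le_add_right _ _)).2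
  have hlen : ∀ σ ∈ S, σ.length = L + h.length := by
    have h1 : Fx x (L + h.length) r₂ (S.filter fun σ => σ.length = L + h.length) :=
      FA.imp hS fun G _ h2 => Finset.mem_filter.2 ⟨h2, length_Rx _ _⟩
    have h2 := hmin _ h1
    have h3 : (S.filter fun σ => σ.length = L + h.length) = S :=
      Finset.eq_of_subset_of_card_le (Finset.filter_subset _ _) (by rw [hSc]; exact h2)
    intro σ hσ
    rw [← h3] at hσ
    exact (Finset.mem_filter.1 hσ).2
  have hr2c : tr β r₂ ≤ c := by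
    have h1 := tr_mono hr₂.le β
    rwa [hr₁c] at h1
  -- the tree at `β`
  have h2T : FA (tr β r₂) fun G => St (ev (r₂.co β) G) a ∧ Nm (ev (r₂.co β) G) := by
    have h1 := h2p β hp.lt
    rw [hp.kb] at h1
    have h2 : FA (tr β r₂) fun G => Nm (ev (p.co β) G) := (hp.nr β hp.lt).mono (tr_mono h2p.le β)
    have h3 : FA (tr β r₂) fun G => St (ev (p.co β) G) a := hp.ha.mono (hr2c.trans hc)
    exact (h1.and h2).imp₂ h3 fun G _ h4 h5 => ⟨h4.1.st one_pos h4.2 h5, h4.1.nm one_pos h4.2⟩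
  -- the child
  obtain ⟨v, hv, n, hn⟩ := FA.exists_of_BPr (w := tr β r₂)
    (Ψ := fun (n : ℕ) G => m ≤ n ∧ a ++ [n] ∈ ev (r₂.co β) G)
    (fun n => (BPr.const (m ≤ n)).and (bt_ev (r₂.co β) (a ++ [n])))
    (h2T.imp fun G _ h1 => by
      obtain ⟨n, h2, h3⟩ := h1.1.1.2 m
      exact ⟨n, h2, h3⟩)
  have hmn : m ≤ n := by
    obtain ⟨G, -, h1⟩ := hn.exists
    exact h1.1
  obtain ⟨r₃, hr₃v, hr₃co, hr₃, -⟩ := exists_join hp.lt.le r₂ v hv
  have h32 : PLe k' r₃ r₂ := by
    refine ple_join (ξ := β) hp.lt.le (ple_of_le ?_ hp.kl) hr₃co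
    rw [hr₃v]
    exact hv
  have h3p : PLe k' r₃ p := h32.trans h2p
  have hs : FA (tr β r₃) fun G => a ++ [n] ∈ ev (r₃.co β) G := by
    rw [hr₃v, hr₃co β le_rfl]
    exact hn.imp fun G _ h1 => h1.2
  obtain ⟨ρ, hρ, hρβ, hρco, hρη, hρtp⟩ := exists_restr hp.lt r₃ hs
  have hρv : tr β ρ = v := hρβ.trans hr₃v
  -- the tree of `ρ` at `β`
  have h3T : FA v fun G => St (ev (r₃.co β) G) a ∧ Nm (ev (r₃.co β) G) := by
    rw [hr₃co β le_rfl]
    exact h2T.mono hv
  have hev : FA v fun G => ev (ρ.co β) G = abv (ev (r₃.co β) G) (a ++ [n]) := by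
    rw [hρco]
    exact bt_ev_mkn (bt_abv (bt_ev _) _) v
  refine ⟨v, hv.trans hr2c, ⟨r₃, ρ, S, n⟩, ?_⟩
  have hvc : v ≤ c := hv.trans hr2c
  have hk' := hk.mono hvc
  refine ⟨?_, ?_, ?_, ?_, ?_, ?_, ?_, ?_⟩
  · intro y hy
    rcases List.mem_append.1 hy with h1 | h1
    · exact hk'.le y h1
    · rw [List.mem_singleton] at h1
      subst h1
      exact hr₃v.ge
  · intro y hy
    rcases List.mem_append.1 hy with h1 | h1
    · exact hk'.ple y h1
    · rw [List.mem_singleton] at h1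
      subst h1
      exact h3p
  · intro y hy
    rcases List.mem_append.1 hy with h1 | h1
    · exact hk'.cmb y h1
    · rw [List.mem_singleton] at h1
      subst h1
      refine ⟨hρv.ge, hρ.trans h3p.le, ?_, ?_, ?_⟩
      · have h2 := (le_tp_iff hp.lt).1 hρtp
        rwa [hρv] at h2
      · exact hev.imp₂ h3T fun G _ h2 h3 => by
          rw [h2]
          exact nm_abv h3.2 _
      · intro hmd
        subst hmd
        have h2 : FA v fun G => TC Md.laver (ev (r₃.co β) G) := by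
          have h3 := r₃.good β
          rwa [hr₃v] at h3
        rw [hr₃v] at hs
        refine (hev.and h2).imp₂ (h3T.and hs) fun G _ h3 h4 => ?_
        rw [h3.1]
        exact Laver.st_abv h3.2 h4.1.1 h4.2 (List.prefix_append _ _)
  · intro y hy
    rcases List.mem_append.1 hy with h1 | h1
    · exact hk'.rle y h1
    · rw [List.mem_singleton] at h1
      subst h1
      exact ⟨hρ, hρη⟩
  · intro j hj
    rw [List.length_append, List.length_singleton] at hj
    rcases Nat.lt_succ_iff_lt_or_eq.1 hj with h1 | h1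
    · rw [List.getElem_append_left h1]
      exact hk'.val j h1
    · subst h1
      simp only [List.getElem_concat_length]
      exact ⟨hS.mono h32.le, hSc, hlen⟩
  · intro j hj
    rw [List.length_append, List.length_singleton] at hj
    rcases Nat.lt_succ_iff_lt_or_eq.1 hj with h1 | h1
    · rw [List.getElem_append_left h1, List.getElem_append_left (Nat.lt_of_succ_lt h1)]
      exact hk'.res j h1
    · have hjl : j < h.length := by omega
      have hq := hql j hjl h1
      rw [List.getElem_append_left hjl]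
      have h2 : (h ++ [(⟨r₃, ρ, S, n⟩ : PE Ω md ζ)])[j + 1]'(by simp; omega) = ⟨r₃, ρ, S, n⟩ := by
        rw [List.getElem_append_right (by omega)]
        simp
      rw [h2]
      obtain ⟨hv1, hv2, hv3⟩ := hk.val j hjl
      have h3 : Fx x (L + j) r₂ (h[j]).S := hv1.mono (by
        rw [← hq]
        exact hr₂.le.trans h1q.le)
      -- the elements of `S` restrict to elements of `h[j].S`
      have h4 : Fx x (L + h.length) r₂ (S.filter fun σ => σ.take (L + j) ∈ (h[j]).S) := by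
        refine FA.imp₂ hS h3 fun G _ h5 h6 => ?_
        refine Finset.mem_filter.2 ⟨h5, ?_⟩
        rw [take_Rx (by omega)]
        exact h6
      have h5 : (S.filter fun σ => σ.take (L + j) ∈ (h[j]).S) = S :=
        Finset.eq_of_subset_of_card_le (Finset.filter_subset _ _) (by rw [hSc]; exact hmin _ h4)
      have h6 : Fx x (L + j) r₂ (S.image (List.take (L + j))) := hS.take (by omega)
      refine Finset.eq_of_subset_of_card_le ?_ ?_
      · intro σ hσ
        obtain ⟨τ, hτ, rfl⟩ := Finset.mem_image.1 hσ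
        rw [← h5] at hτ
        exact (Finset.mem_filter.1 hτ).2
      · rw [hv2]
        exact (hp.st r₂ h2p (L + j) (Nat.le_add_right _ _)).2 _ h6
  · intro j hj
    rw [List.length_append, List.length_singleton] at hj
    rcases Nat.lt_succ_iff_lt_or_eq.1 hj with h1 | h1
    · rw [List.getElem_append_left h1, List.getElem_append_left (Nat.lt_of_succ_lt h1)]
      exact hk'.dec j h1
    · have hjl : j < h.length := by omega
      have hq := hql j hjl h1
      rw [List.getElem_append_left hjl]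
      have h2 : (h ++ [(⟨r₃, ρ, S, n⟩ : PE Ω md ζ)])[j + 1]'(by simp; omega) = ⟨r₃, ρ, S, n⟩ := by
        rw [List.getElem_append_right (by omega)]
        simp
      rw [h2, ← hq]
      exact h32.trans (hr₂.trans h1q)
  · rw [List.pairwise_append]
    refine ⟨hk.inc, List.pairwise_singleton _ _, fun y hy z hz => ?_⟩
    rw [List.mem_singleton] at hz
    subst hz
    exact lt_of_lt_of_le (hm y hy) hmn

end Pool.Agent.Lib.MP_011f3a_lc.LM
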