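import Pool.Agent.Lib.MP_011f3a_lc.LM.I.GLp

/-! # The local claim for Laver forcing (module D-LOCL)

Decide the stem `a` of `p(ξ)`: pass to `w₀ ≤ w` and `a` with `FA w₀ (St (ev (p.co ξ) G) a)`. `GdL v t`: some `ρ ≤ p` with `v ≤ tr ξ ρ`, `Φ c ρ` for some `c` and `FA v (St (ev (ρ.co ξ) G) t)`. Suppose no `v ≤ w₀` has
`GdL v a`. `Bad G t`: no `v ∈ G` has `GdL v t` (decidable: `BPr.mt`). By `cmb'` it is forced by `w₀`: if `t ∈ p(ξ)` extends `a` and is bad then all but finitely many children of `t` in `p(ξ)` are bad (otherwise some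
`w₁ ≤ w₀` forces the failure; then `cmb'` gives `r` with `GdL (tr ξ r) t`, contradiction; for `t ++ [n]`: `GdL v (t ++ [n])` implies `∃ c, Gd p Φ c t v n`). The tree `T* = {t ∈ p(ξ) | every t' with a <+: t' <+: t is bad}` is
forced to be a Laver tree with stem `a` (`laver_of_st`). Let `q` be below the corresponding condition (`exists_join`, `exists_upd`) with `Φ c q` (`Phi.dense`), and decide the stem `t` of `q(ξ)` by some `v ≤ tr ξ q`: `t ∈ T*` extends `a`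
(`St.prefix_of_subset`), so it is forced to be bad, but `GdL v t` (join of `v` and `q`), contradiction (`FA.exists`). -/

namespace Pool.Agent.Lib.MP_011f3a_lc.LM

variable {Ω : Type} [LinearOrder Ω] [WellFoundedLT Ω] {ζ ξ η : Ω} {I : Type}

/-- `ρ` with stem `t` at `ξ` -/
def GdL (p : Cn Ω Md.laver ζ) (Φ : I → Cn Ω Md.laver ζ → Prop) (v : Cn Ω Md.laver ξ) (t : List ℕ) : Prop :=
  ∃ c, ∃ ρ ≤ p, v ≤ tr ξ ρ ∧ Φ c ρ ∧ FA v fun G => St (ev (ρ.co ξ) G) t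

theorem GdL.gd {p : Cn Ω Md.laver ζ} {Φ : I → Cn Ω Md.laver ζ → Prop} {v : Cn Ω Md.laver ξ} {t : List ℕ} {n : ℕ}
    (h : GdL p Φ v (t ++ [n])) : ∃ c, Gd p Φ c t v n := by
  obtain ⟨c, ρ, h1, h2, h3, h4⟩ := h
  refine ⟨c, ρ, h1, h2, h3, ?_, fun _ => h4⟩
  exact h4.imp fun G _ hG s hs => ⟨trivial, hG.2 s hs⟩

theorem bad_child {Φ : I → Cn Ω Md.laver ζ → Prop} (hξ : ξ < ζ) (hP : Phi Φ) (hC : CW Md.laver ξ 0) (p : Cn Ω Md.laver ζ)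
    (w : Cn Ω Md.laver ξ) (hw : w ≤ tr ξ p) (t : List ℕ) :
    FA w fun G => (∀ v ∈ G.car, ¬ GdL p Φ v t) → ∃ N, ∀ n ≥ N, ∀ v ∈ G.car, ¬ GdL p Φ v (t ++ [n]) := by
  have hbad : ∀ s, BPr fun G : Flt (Cn Ω Md.laver ξ) => ∀ v ∈ G.car, ¬ GdL p Φ v s := fun s =>
    (BPr.mt {v | GdL p Φ v s}).not.congr fun G =>
      ⟨fun h v hv hg => h ⟨v, hg, hv⟩, fun h ⟨v, hg, hv⟩ => h v hv hg⟩
  refine BPr.of_forall (BPr.imp (hbad t) (BPr.exists fun N => BPr.all fun n =>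
    BPr.imp (BPr.const (n ≥ N)) (hbad (t ++ [n])))) fun v hv hf => ?_
  have h1 : FA v fun G => ∀ N, ∃ n ≥ N, ∃ v ∈ G.car, ∃ c, Gd p Φ c t v n := by
    refine hf.imp fun G _ h N => ?_
    by_contra hcon
    refine h fun _ => ⟨N, fun n hn u hu hg => hcon ⟨n, hn, u, hu, hg.gd⟩⟩
  obtain ⟨c, r, hr, hrv, hΦ, hst⟩ := cmb' hξ hP hC p v (hv.trans hw) t h1
  obtain ⟨G, hG, h2⟩ := (hf.mono hrv).exists
  exact h2 fun h3 => absurd (⟨c, r, hr, le_rfl, hΦ, hst.imp fun _ _ h => h.1⟩ : GdL p Φ (tr ξ r) t) (h3 _ hG)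

end Pool.Agent.Lib.MP_011f3a_lc.LM

/-! # The local claim for Laver forcing, part 2 (module D-LOCLB)

See the header of D/LocL.lean. -/

namespace Pool.Agent.Lib.MP_011f3a_lc.LM

variable {Ω : Type} [LinearOrder Ω] [WellFoundedLT Ω] {ζ ξ η : Ω} {I : Type}

/-- all nodes between `a` and `t` are bad -/
private def loclbT (p : Cn Ω Md.laver ζ) (Φ : I → Cn Ω Md.laver ζ → Prop) (ξ : Ω) (a : List ℕ) (G : Flt (Cn Ω Md.laver ξ)) :
    Set (List ℕ) :=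
  {t | t ∈ ev (p.co ξ) G ∧ ∀ t', a <+: t' → t' <+: t → ∀ v ∈ G.car, ¬ GdL p Φ v t'}

private theorem loclb_bt (p : Cn Ω Md.laver ζ) (Φ : I → Cn Ω Md.laver ζ → Prop) (ξ : Ω) (a : List ℕ) :
    BT (loclbT p Φ ξ a) := by
  have hbad : ∀ s, BPr fun G : Flt (Cn Ω Md.laver ξ) => ∀ v ∈ G.car, ¬ GdL p Φ v s := fun s =>
    (BPr.mt {v | GdL p Φ v s}).not.congr fun G =>
      ⟨fun h v hv hg => h ⟨v, hg, hv⟩, fun h ⟨v, hg, hv⟩ => h v hv hg⟩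
  intro t
  exact BPr.and (bt_ev (p.co ξ) t) (BPr.all fun t' => BPr.imp (BPr.const (a <+: t'))
    (BPr.imp (BPr.const (t' <+: t)) (hbad t')))

private theorem loclb_laver (p : Cn Ω Md.laver ζ) (Φ : I → Cn Ω Md.laver ζ → Prop) {a : List ℕ} {G : Flt (Cn Ω Md.laver ξ)}
    (hl : Laver (ev (p.co ξ) G)) (ha : St (ev (p.co ξ) G) a) (hb : ∀ v ∈ G.car, ¬ GdL p Φ v a)
    (hc : ∀ t, (∀ v ∈ G.car, ¬ GdL p Φ v t) → ∃ N, ∀ n ≥ N, ∀ v ∈ G.car, ¬ GdL p Φ v (t ++ [n])) :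
    Laver (loclbT p Φ ξ a G) := by
  have hs : ∀ s ∈ loclbT p Φ ξ a G, a <+: s → Split (loclbT p Φ ξ a G) s := by
    intro s hs has
    refine ⟨hs, fun m => ?_⟩
    obtain ⟨N, hN⟩ := hc s (hs.2 s has (List.prefix_refl s))
    obtain ⟨n, hn, hmem⟩ := (hl.split ha hs.1 has).2 (max m N)
    refine ⟨n, (le_max_left _ _).trans hn, hmem, fun t' h1 h2 => ?_⟩
    rcases List.prefix_concat_iff.1 h2 with h3 | h3
    · rw [h3]
      exact hN n ((le_max_right _ _).trans hn)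
    · exact hs.2 t' h1 h3
  have ha' : a ∈ loclbT p Φ ξ a G := by
    refine ⟨ha.mem, fun t' h1 h2 => ?_⟩
    rw [← h1.eq_of_length (le_antisymm h1.length_le h2.length_le)]
    exact hb
  refine laver_of_st (a := a) ?_ ⟨hs a ha' (List.prefix_refl a), fun s hs => ha.2 s hs.1⟩ hs
  intro s n hsn
  exact ⟨hl.1 s n hsn.1, fun t' h1 h2 => hsn.2 t' h1 (h2.trans (List.prefix_append s [n]))⟩

theorem exists_GdL {Φ : I → Cn Ω Md.laver ζ → Prop} (hξ : ξ < ζ) (hP : Phi Φ) (hC : CW Md.laver ξ 0) (p : Cn Ω Md.laver ζ)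
    (w : Cn Ω Md.laver ξ) (hw : w ≤ tr ξ p) (a : List ℕ) (ha : FA w fun G => St (ev (p.co ξ) G) a) :
    ∃ v ≤ w, GdL p Φ v a := by
  by_contra hno
  have hb : FA w fun G => ∀ v ∈ G.car, ¬ GdL p Φ v a := by
    refine FA.of_forall fun G hG v hv hg => ?_
    obtain ⟨u, -, h1, h2⟩ := G.dir v hv w hG
    obtain ⟨c, ρ, h3, h4, h5, h6⟩ := hg
    exact hno ⟨u, h2, c, ρ, h3, h1.trans h4, h5, h6.mono h1⟩
  have hc : FA w fun G => ∀ t, (∀ v ∈ G.car, ¬ GdL p Φ v t) → ∃ N, ∀ n ≥ N, ∀ v ∈ G.car, ¬ GdL p Φ v (t ++ [n]) :=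
    FA.all fun t => bad_child hξ hP hC p w hw t
  have hT : FA w fun G => TC Md.laver (loclbT p Φ ξ a G) ∧ loclbT p Φ ξ a G ⊆ ev (p.co ξ) G := by
    refine ((hb.and hc).and ha).imp₂ ((p.good ξ).mono hw) fun G _ h1 h2 => ⟨?_, fun s hs => hs.1⟩
    exact loclb_laver p Φ h2 h1.2 h1.1.1 h1.1.2
  obtain ⟨r₁, h1, h2, h3, -⟩ := exists_join hξ.le p w hw
  obtain ⟨r₂, h4, h5, h6, -⟩ := exists_upd hξ r₁ (loclb_bt p Φ ξ a) (by
    rw [h1, h2 ξ le_rfl]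
    exact hT)
  obtain ⟨q, hq, c, hΦ⟩ := hP.dense r₂
  have hqw : tr ξ q ≤ w := by
    rw [← h1, ← h5]
    exact tr_mono hq ξ
  obtain ⟨v, hv, t, ht⟩ := FA.exists_of_BPr (w := tr ξ q) (Ψ := fun t G => St (ev (q.co ξ) G) t)
    (fun t => bt_st (bt_ev _) t) ((q.good ξ).imp fun G _ h => by
      obtain ⟨t, ht, -⟩ := Laver.exists_st h
      exact ⟨t, ht⟩)
  have hg : GdL p Φ v t := ⟨c, q, hq.trans (h4.trans h3), hv, hΦ, ht⟩
  have e1 : FA v fun G => ev (q.co ξ) G ⊆ loclbT p Φ ξ a G := by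
    refine ((FA.vl_sub hξ hq).mono hv).imp₂ (bt_ev_mkn (loclb_bt p Φ ξ a) v) fun G _ h7 h8 => ?_
    rw [h6, h8] at h7
    exact h7
  have e2 : FA v fun G => ∀ u ∈ G.car, ¬ GdL p Φ u t := by
    refine ((e1.and ht).and ((q.good ξ).mono hv)).imp₂ (ha.mono (hv.trans hqw)) fun G _ h7 h8 => ?_
    obtain ⟨⟨h9, h10⟩, h11⟩ := h7
    have h12 : a <+: t := St.prefix_of_subset h11 h8 h10 fun s hs => (h9 hs).1
    exact (h9 h10.mem).2 t h12 (List.prefix_refl t)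
  obtain ⟨G, hG, h7⟩ := e2.exists
  exact h7 v hG hg

theorem loc_laver {Φ : I → Cn Ω Md.laver ζ → Prop} (hξ : ξ < ζ) (hP : Phi Φ) (hC : CW Md.laver ξ 0) (p : Cn Ω Md.laver ζ)
    (w : Cn Ω Md.laver ξ) (hw : w ≤ tr ξ p) :
    ∃ c, ∃ q ≤ p, tr ξ q ≤ w ∧ Φ c q ∧
      FA (tr ξ q) fun G => Nm (ev (q.co ξ) G) ∧ ∀ a, St (ev (p.co ξ) G) a → St (ev (q.co ξ) G) a := by
  obtain ⟨v₀, hv₀, a, ha⟩ := FA.exists_of_BPr (w := w) (Ψ := fun a G => St (ev (p.co ξ) G) a)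
    (fun a => bt_st (bt_ev _) a) (((p.good ξ).mono hw).imp fun G _ h => by
      obtain ⟨t, ht, -⟩ := Laver.exists_st h
      exact ⟨t, ht⟩)
  obtain ⟨v, hv, c, ρ, h1, h2, h3, h4⟩ := exists_GdL hξ hP hC p v₀ (hv₀.trans hw) a ha
  obtain ⟨q, h5, h6, h7, -⟩ := exists_join hξ.le ρ v h2
  refine ⟨c, q, h7.trans h1, ?_, hP.mono c _ _ h7 h3, ?_⟩
  · rw [h5]
    exact hv.trans hv₀
  · have h8 := q.good ξ
    rw [h5, h6 ξ le_rfl] at h8 ⊢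
    refine (h4.and h8).imp₂ (ha.mono hv) fun G _ h9 h10 => ⟨Laver.nm h9.2, fun a' ha' => ?_⟩
    rw [ha'.unique h10]
    exact h9.1

end Pool.Agent.Lib.MP_011f3a_lc.LM
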