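import Pool.Agent.Lib.MP_011f3a_lc.LM.I.GLp

/-! # The local claim for Miller forcing (module D-LOCM)

Decide the first splitting node `a` of `p(ξ)` (`exists_St`). For every `n` with `a ++ [n] ∈ p(ξ)` (infinitely many) the set of the `v` with `∃ c, Gd p Φ c a v n` is dense below `w ∧ (a ++ [n] ∈ p(ξ))`: join, `exists_restr`,
`Phi.dense`. Then `cmb'`. (In the Miller case the last clause of `Gd` is void.) -/

namespace Pool.Agent.Lib.MP_011f3a_lc.LM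

variable {Ω : Type} [LinearOrder Ω] [WellFoundedLT Ω] {ζ ξ η : Ω} {I : Type}

theorem loc_miller {Φ : I → Cn Ω Md.miller ζ → Prop} (hξ : ξ < ζ) (hP : Phi Φ) (hC : CW Md.miller ξ 0) (p : Cn Ω Md.miller ζ)
    (hn : FA (tr ξ p) fun G => Nm (ev (p.co ξ) G)) (w : Cn Ω Md.miller ξ) (hw : w ≤ tr ξ p) :
    ∃ c, ∃ q ≤ p, tr ξ q ≤ w ∧ Φ c q ∧
      FA (tr ξ q) fun G => Nm (ev (q.co ξ) G) ∧ ∀ a, St (ev (p.co ξ) G) a → St (ev (q.co ξ) G) a := by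
  obtain ⟨v₀, hv₀, a, ha⟩ := FA.exists_of_BPr (w := w) (Ψ := fun a G => St (ev (p.co ξ) G) a)
    (fun a => bt_st (bt_ev _) a) ((hn.mono hw).imp₂ ((p.good ξ).mono hw) fun G _ h1 h2 => exists_St h2 h1)
  have hv₀p := hv₀.trans hw
  have key : ∀ n, FA v₀ fun G => a ++ [n] ∈ ev (p.co ξ) G → mt {v | ∃ c, Gd p Φ c a v n} G := by
    intro n
    refine FA_local fun w' hw' => ?_
    obtain ⟨v, hv, h⟩ := bt_ev (p.co ξ) (a ++ [n]) w'
    refine ⟨v, hv, ?_⟩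
    rcases h with h | h
    · have h0 : FA v (mt {v | ∃ c, Gd p Φ c a v n}) := by
        refine FA_mt_dnsB fun q hq => ?_
        obtain ⟨r₁, h1, h2, h3, -⟩ := exists_join hξ.le p q (hq.trans (hv.trans (hw'.trans hv₀p)))
        obtain ⟨r₂, h4, h5, -, -, h6⟩ := exists_restr hξ r₁ (s := a ++ [n])
          (by rw [h1, h2 ξ le_rfl]; exact h.mono hq)
        obtain ⟨r₃, h7, c, h8⟩ := hP.dense r₂
        refine ⟨tr ξ r₃, ?_, c, r₃, h7.trans (h4.trans h3), le_rfl, h8,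
          (le_tp_iff hξ).1 (h7.trans h6), fun h => ?_⟩
        · rw [← h1, ← h5]
          exact tr_mono h7 ξ
        · cases h
      exact h0.imp fun _ _ h _ => h
    · exact h.imp fun _ _ h1 h2 => absurd h2 h1
  have key2 : FA v₀ fun G => ∀ N, ∃ n ≥ N, ∃ v ∈ G.car, ∃ c, Gd p Φ c a v n := by
    refine (FA.all key).imp₂ ha fun G _ h1 h2 N => ?_
    obtain ⟨n, hn, hm⟩ := h2.1.2 N
    obtain ⟨v, hv, hvG⟩ := h1 n hm
    exact ⟨n, hn, v, hvG, hv⟩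
  obtain ⟨c, r, hr, hrv, hΦ, hst⟩ := cmb' hξ hP hC p v₀ hv₀p a key2
  refine ⟨c, r, hr, hrv.trans hv₀, hΦ, ?_⟩
  refine hst.imp₂ (ha.mono hrv) fun G _ h1 h2 => ⟨h1.2, fun a' ha' => ?_⟩
  rw [ha'.unique h2]
  exact h1.1

end Pool.Agent.Lib.MP_011f3a_lc.LM
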