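import Pool.Agent.Lib.MP_011f3a_lc.LM.B.Cover
import Pool.Agent.Lib.MP_011f3a_lc.LM.B.Fus
import Pool.Agent.Lib.MP_011f3a_lc.LM.D.LocL
import Pool.Agent.Lib.MP_011f3a_lc.LM.D.LocM
import Pool.Agent.Lib.MP_011f3a_lc.LM.I.GbB

/-! # The local claim for `m = 1`, both forcings; several regions (module D-LOC)

`loc_one`: `loc_miller`, `loc_laver`. `loc_fin`: let `K = KS m` and go through its elements one after the other (induction on a finset): for each `r` apply `loc_one` to the condition `p` with `p(ξ)` replaced by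
its region `Rg (p(ξ)) m r` (`exists_join`, `exists_upd`; `reg_tc`, `reg_nm`) below the current `w`; the earlier `ρ r` may be kept because only `tr ξ q ≤ tr ξ (ρ r)` and facts
forced by `tr ξ (ρ r)` are needed. -/

namespace Pool.Agent.Lib.MP_011f3a_lc.LM

variable {Ω : Type} [LinearOrder Ω] [WellFoundedLT Ω] {md : Md} {ζ ξ η : Ω} {I : Type} {Φ : I → Cn Ω md ζ → Prop}

theorem loc_one (hξ : ξ < ζ) (hP : Phi Φ) (hC : CW md ξ 0) (p : Cn Ω md ζ) (hn : FA (tr ξ p) fun G => Nm (ev (p.co ξ) G))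
    (w : Cn Ω md ξ) (hw : w ≤ tr ξ p) :
    ∃ c, ∃ q ≤ p, tr ξ q ≤ w ∧ Φ c q ∧
      FA (tr ξ q) fun G => Nm (ev (q.co ξ) G) ∧ ∀ a, St (ev (p.co ξ) G) a → St (ev (q.co ξ) G) a := by
  cases md
  · exact loc_laver hξ hP hC p w hw
  · exact loc_miller hξ hP hC p hn w hw

private theorem Loc_step (hξ : ξ < ζ) (hP : Phi Φ) (hC : CW md ξ 0) (p : Cn Ω md ζ)
    (hn : FA (tr ξ p) fun G => Nm (ev (p.co ξ) G)) (m : ℕ) (w : Cn Ω md ξ) (hw : w ≤ tr ξ p)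
    (r : List ℕ) :
    ∃ c, ∃ q ≤ p, tr ξ q ≤ w ∧ Φ c q ∧
      FA (tr ξ q) fun G => ev (q.co ξ) G ⊆ Rg (ev (p.co ξ) G) m r ∧ Nm (ev (q.co ξ) G) ∧
        ∀ a, Kp (ev (p.co ξ) G) r a → St (ev (q.co ξ) G) a := by
  obtain ⟨p1, h1, h2, h3, _⟩ := exists_join hξ.le p w hw
  have hT : BT fun G : Flt (Cn Ω md ξ) => Rg (ev (p.co ξ) G) m r := bt_rg (bt_ev _) m r
  have hgood : FA w fun G => TC md (ev (p.co ξ) G) ∧ Nm (ev (p.co ξ) G) :=
    ((p.good ξ).and hn).mono hw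
  obtain ⟨p2, k1, k2, k3, _⟩ := exists_upd hξ p1 hT (by
    rw [h1, h2 ξ le_rfl]
    refine hgood.imp fun G _ h => ⟨?_, reg_subset _ _ _⟩
    obtain ⟨a, ha⟩ := exists_kp h.1 h.2 r
    exact reg_tc h.1 h.2 ha)
  rw [h1] at k2
  have hev : FA w fun G => ev (p2.co ξ) G = Rg (ev (p.co ξ) G) m r := by
    rw [k3]
    exact bt_ev_mkn hT w
  obtain ⟨c, q, hq, hqw, hΦ, hF⟩ := loc_one hξ hP hC p2 (by
    rw [k2]
    refine FA.imp₂ hgood hev fun G _ h h' => ?_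
    obtain ⟨a, ha⟩ := exists_kp h.1 h.2 r
    rw [h']
    exact reg_nm h.1 h.2 ha) w k2.ge
  refine ⟨c, q, hq.trans (k1.trans h3), hqw, hΦ, ?_⟩
  refine FA.imp₂ (hF.and (Cn.le_iff.1 hq ξ hξ)) ((hgood.and hev).mono hqw) fun G _ h h' => ?_
  have h4 := h.2
  have h5 := h.1.2
  rw [h'.2] at h4 h5
  exact ⟨h4, h.1.1, fun a ha => h5 a (reg_st h'.1.1 h'.1.2 ha)⟩

theorem loc_fin (hξ : ξ < ζ) (hP : Phi Φ) (hC : CW md ξ 0) (p : Cn Ω md ζ) (hn : FA (tr ξ p) fun G => Nm (ev (p.co ξ) G))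
    (m : ℕ) (w : Cn Ω md ξ) (hw : w ≤ tr ξ p) :
    ∃ w' ≤ w, ∃ (c : List ℕ → I) (ρ : List ℕ → Cn Ω md ζ), ∀ r ∈ KS m, ρ r ≤ p ∧ w' ≤ tr ξ (ρ r) ∧ Φ (c r) (ρ r) ∧
      FA w' fun G => ev ((ρ r).co ξ) G ⊆ Rg (ev (p.co ξ) G) m r ∧ Nm (ev ((ρ r).co ξ) G) ∧
        ∀ a, Kp (ev (p.co ξ) G) r a → St (ev ((ρ r).co ξ) G) a := by
  classical
  generalize KS m = K
  induction K using Finset.induction_on with
  | empty =>
    obtain ⟨_, _, c, _⟩ := hP.dense p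
    exact ⟨w, le_rfl, fun _ => c, fun _ => p, fun r hr => absurd hr (Finset.notMem_empty r)⟩
  | insert r K hr ih =>
    obtain ⟨w1, hw1, c, ρ, h⟩ := ih
    obtain ⟨c', q, hq, hqw, hΦ, hF⟩ := Loc_step hξ hP hC p hn m w1 (hw1.trans hw) r
    refine ⟨tr ξ q, hqw.trans hw1, Function.update c r c', Function.update ρ r q, fun s hs => ?_⟩
    by_cases hsr : s = r
    · subst hsr
      rw [Function.update_self, Function.update_self]
      exact ⟨hq, le_rfl, hΦ, hF⟩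
    · rw [Function.update_of_ne hsr, Function.update_of_ne hsr]
      obtain ⟨h1, h2, h3, h4⟩ := h s ((Finset.mem_insert.1 hs).resolve_left hsr)
      exact ⟨h1, hqw.trans h2, h3, h4.mono hqw⟩

end Pool.Agent.Lib.MP_011f3a_lc.LM

/-! # The local claim (module D-LOCAM)

From `loc_fin`: `w'`, `c`, `ρ`. Amalgam: `T G = am m fun r => ev ((ρ r).co ξ) G` (`AmH`), `exists_glp` with index type `{(r, s) | r ∈ KS m}`,
`B (r, s) = {b | b ≤ w' ∧ FA b (∃ a u, s = a ++ [u] ∧ Kp (ev (p.co ξ) G) r a ∧ s ∈ ev ((ρ r).co ξ) G)}`, strings `s`, conditions `ρ r` (`AmH.sub_of_child`). Two active indices have the same `r`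
(`reg_child_unique`: two strings on the branch have a common extension). Density of the `v' ≤ ρ r`: `exists_restr_of` and `AmH.exists_child`. `q ≤ p`: `Cn.sep` or coordinatewise. -/

namespace Pool.Agent.Lib.MP_011f3a_lc.LM

variable {Ω : Type} [LinearOrder Ω] [WellFoundedLT Ω] {md : Md} {ζ ξ η : Ω} {I : Type} {Φ : I → Cn Ω md ζ → Prop}

/-- `s` is a child of the kept node of index `r` which belongs to the tree of `ρ r` -/
private def LocAmX (p : Cn Ω md ζ) (ξ : Ω) (ρ : List ℕ → Cn Ω md ζ) (r s : List ℕ) (G : Flt (Cn Ω md ξ)) : Prop :=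
  ∃ a, ∃ u, s = a ++ [u] ∧ Kp (ev (p.co ξ) G) r a ∧ s ∈ ev ((ρ r).co ξ) G

private theorem LocAm_bpr (p : Cn Ω md ζ) (ξ : Ω) (ρ : List ℕ → Cn Ω md ζ) (r s : List ℕ) :
    BPr (LocAmX p ξ ρ r s) := by
  unfold LocAmX
  exact BPr.exists fun a => BPr.exists fun u => (BPr.const _).and ((bt_kp (bt_ev _) r a).and (bt_ev _ s))

/-- the sets of the conditions -/
private def LocAmB (p : Cn Ω md ζ) (ρ : List ℕ → Cn Ω md ζ) (m : ℕ) (w : Cn Ω md ξ) (i : List ℕ × List ℕ) :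
    Set (Cn Ω md ξ) := {b | i.1 ∈ KS m ∧ b ≤ w ∧ FA b (LocAmX p ξ ρ i.1 i.2)}

theorem loc (hξ : ξ < ζ) (hP : Phi Φ) (hC : CW md ξ 0) (p : Cn Ω md ζ) (hn : FA (tr ξ p) fun G => Nm (ev (p.co ξ) G))
    (m : ℕ) (hm : 0 < m) (w : Cn Ω md ξ) (hw : w ≤ tr ξ p) :
    ∃ q ≤ p, tr ξ q ≤ w ∧ (FA (tr ξ q) fun G => TLe m (ev (q.co ξ) G) (ev (p.co ξ) G)) ∧
      ∃ (c : List ℕ → I) (ρ : List ℕ → Cn Ω md ζ), (∀ r ∈ KS m, Φ (c r) (ρ r)) ∧
        ∀ v ≤ q, ∃ v' ≤ v, ∃ r ∈ KS m, v' ≤ ρ r := by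
  obtain ⟨w', hw', c, ρ, hρ⟩ := loc_fin hξ hP hC p hn m w hw
  have hwp : w' ≤ tr ξ p := hw'.trans hw
  -- the amalgamation hypotheses are forced
  have hAm : FA w' fun G => AmH md (ev (p.co ξ) G) m fun r => ev ((ρ r).co ξ) G := by
    have h1 : FA w' fun G => ∀ r, wt r < m → (ev ((ρ r).co ξ) G ⊆ Rg (ev (p.co ξ) G) m r ∧ Nm (ev ((ρ r).co ξ) G) ∧
        ∀ a, Kp (ev (p.co ξ) G) r a → St (ev ((ρ r).co ξ) G) a) ∧ TC md (ev ((ρ r).co ξ) G) := by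
      refine FA.all fun r => ?_
      by_cases hr : r ∈ KS m
      · obtain ⟨_, h2, _, h3⟩ := hρ r hr
        exact h3.imp₂ (((ρ r).good ξ).mono h2) fun G _ h4 h5 _ => ⟨h4, h5⟩
      · exact FA.of_forall fun G _ h2 => (hr (mem_KS.2 h2)).elim
    refine h1.imp₂ (((p.good ξ).mono hwp).and (hn.mono hwp)) fun G _ h2 h3 => ?_
    exact ⟨h3.1, h3.2, hm, fun r hr => (h2 r hr).1.1, fun r hr => (h2 r hr).2, fun r hr => (h2 r hr).1.2.1,
      fun r hr => (h2 r hr).1.2.2⟩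
  have hT : BT fun G : Flt (Cn Ω md ξ) => am m fun r => ev ((ρ r).co ξ) G :=
    bt_am (T := fun r G => ev ((ρ r).co ξ) G) (fun r => bt_ev _) m
  have hchild : FA w' fun G => ∀ i : List ℕ × List ℕ, mt (LocAmB p ρ m w' i) G → LocAmX p ξ ρ i.1 i.2 G := by
    refine FA.all fun i => ?_
    refine (mt_FA_iff (LocAm_bpr p ξ ρ i.1 i.2) w').imp fun G _ h1 h2 => h1.1 ?_
    obtain ⟨b, hb, hbG⟩ := h2
    exact ⟨b, hb.2.2, hbG⟩
  obtain ⟨q, hq1, hq2, -, hq4, -⟩ := exists_glp hξ w' hT (hAm.imp fun G _ h => h.tc_am) (LocAmB p ρ m w')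
    (fun i => i.2) (fun i => ρ i.1)
    (by
      rintro i b ⟨h1, h2, h3⟩ b' hb'
      exact ⟨h1, hb'.trans h2, h3.mono hb'⟩)
    (by
      rintro i b ⟨h1, h2, h3⟩ _
      obtain ⟨_, h4, _, _⟩ := hρ i.1 h1
      refine ⟨h2.trans h4, (hAm.mono h2).imp₂ h3 ?_⟩
      rintro G _ h5 ⟨a, u, h6, h7, h8⟩
      rw [h6] at h8 ⊢
      exact h5.sub_of_child (mem_KS.1 h1) h7 h8)
    (by
      intro η hη hηζ v hv _ hact
      have h1 : FA v fun G => ∀ i : List ℕ × List ℕ, tr η (ρ i.1) ∈ G.car → TC md (ev ((ρ i.1).co η) G) :=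
        FA.all fun i => ((ρ i.1).good η).cond v
      have h2 : FA v fun G => AmH md (ev (p.co ξ) (rs ξ G)) m fun r => ev ((ρ r).co ξ) (rs ξ G) :=
        FA.proj hη.le (hAm.mono hv)
      have h3 : FA v fun G => ∀ i : List ℕ × List ℕ, mt (LocAmB p ρ m w' i) (rs ξ G) →
          LocAmX p ξ ρ i.1 i.2 (rs ξ G) := FA.proj hη.le (hchild.mono hv)
      have h4 : FA v fun G => Branch (gb ξ G) := gb_branch hη v
      refine (h1.and (h2.and (h3.and h4))).imp₂ hact fun G _ h5 h6 => ?_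
      obtain ⟨k1, k2, k3, k4⟩ := h5
      by_cases hex : ∃ i, Act ξ (LocAmB p ρ m w') (fun i => i.2) i G
      · obtain ⟨i, hi⟩ := hex
        have huniq : ∀ j, Act ξ (LocAmB p ρ m w') (fun i => i.2) j G → j.1 = i.1 := by
          intro j hj
          obtain ⟨a, u, e1, e2, e3⟩ := k3 i hi.1
          obtain ⟨a', u', e1', e2', e3'⟩ := k3 j hj.1
          have hri : wt i.1 < m := by
            obtain ⟨b, hb, _⟩ := hi.1
            exact mem_KS.1 hb.1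
          have hrj : wt j.1 < m := by
            obtain ⟨b, hb, _⟩ := hj.1
            exact mem_KS.1 hb.1
          have hsi : i.2 ∈ gb ξ G := hi.2
          have hsj : j.2 ∈ gb ξ G := hj.2
          rw [e1] at e3 hsi
          rw [e1'] at e3' hsj
          have u1 := k2.sub _ hri e3
          have u2 := k2.sub _ hrj e3'
          rcases le_total (a ++ [u]).length (a' ++ [u']).length with hl | hl
          · exact (reg_child_unique k2.tc k2.nm hrj hri e2' e2 u2 u1 (List.prefix_refl _)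
              (k4.2 _ hsi _ hsj hl)).1
          · exact (reg_child_unique k2.tc k2.nm hrj hri e2' e2 u2 u1 (k4.2 _ hsj _ hsi hl)
              (List.prefix_refl _)).1
        have hIP : IP ξ (LocAmB p ρ m w') (fun i => i.2) (fun i => ρ i.1) η G = ev ((ρ i.1).co η) G := by
          ext t
          constructor
          · intro ht
            exact ht i hi
          · intro ht j hj
            show t ∈ ev ((ρ j.1).co η) G
            rw [huniq j hj]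
            exact ht
        rw [hIP]
        exact k1 i (h6 i hi)
      · have hIP : IP ξ (LocAmB p ρ m w') (fun i => i.2) (fun i => ρ i.1) η G = Set.univ :=
          Set.eq_univ_of_forall fun t i hi => (hex ⟨i, hi⟩).elim
        rw [hIP]
        exact TC.univ)
  -- the value of `q` at `ξ`
  have hqT : FA w' fun G => ev (q.co ξ) G = am m fun r => ev ((ρ r).co ξ) G := by
    rw [hq2]
    exact bt_ev_mkn hT w'
  have hdense : ∀ v ≤ q, ∃ v' ≤ v, ∃ r ∈ KS m, v' ≤ ρ r := by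
    intro v hv
    have hvw : tr ξ v ≤ w' := by
      rw [← hq1]
      exact tr_mono hv ξ
    have h1 : FA (tr ξ v) fun G => ∃ s, s ∈ ev (v.co ξ) G ∧ ∃ r, r ∈ KS m ∧ LocAmX p ξ ρ r s G := by
      refine ((hAm.mono hvw).and (hqT.mono hvw)).imp₂ ((v.good ξ).and (FA.vl_sub hξ hv)) fun G _ h2 h3 => ?_
      have h4 : ev (v.co ξ) G ⊆ am m fun r => ev ((ρ r).co ξ) G := by
        rw [← h2.2]
        exact h3.2
      obtain ⟨r, a, u, e1, e2, e3, e4⟩ := h2.1.exists_child h3.1 h4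
      exact ⟨a ++ [u], e4, r, mem_KS.2 e1, a, u, rfl, e2, e3⟩
    obtain ⟨v1, hv1, s, h2, h3, -⟩ := exists_restr_of hξ v
      (Ψ := fun s G => ∃ r, r ∈ KS m ∧ LocAmX p ξ ρ r s G)
      (fun s => BPr.exists fun r => (BPr.const _).and (LocAm_bpr p ξ ρ r s)) h1
    obtain ⟨w1, hw1, r, h4⟩ := h2.exists_of_BPr fun r => (BPr.const _).and (LocAm_bpr p ξ ρ r s)
    obtain ⟨v2, e1, -, e2, -⟩ := exists_join hξ.le v1 w1 hw1
    have hr : r ∈ KS m := by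
      obtain ⟨G, _, h5⟩ := h4.exists
      exact h5.1
    refine ⟨v2, e2.trans hv1, r, hr, ?_⟩
    refine hq4 v2 ((e2.trans hv1).trans hv) (r, s) ⟨hr, ?_, ?_⟩ (e2.trans h3)
    · rw [e1]
      exact (hw1.trans (tr_mono hv1 ξ)).trans hvw
    · rw [e1]
      exact h4.imp fun G _ h5 => h5.2
  refine ⟨q, ?_, ?_, ?_, c, ρ, fun r hr => (hρ r hr).2.2.1, hdense⟩
  · refine Cn.sep fun v hv => ?_
    obtain ⟨v', h1, r, hr, h2⟩ := hdense v hv
    exact ⟨v', h1, h2.trans (hρ r hr).1⟩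
  · rw [hq1]
    exact hw'
  · rw [hq1]
    refine hqT.imp₂ hAm fun G _ h1 h2 => ?_
    rw [h1]
    exact h2.tle

end Pool.Agent.Lib.MP_011f3a_lc.LM

/-! # From the local claim to `≤_k` (module D-STEP)

`ξ` is the last coordinate `< ζ` with `k ξ ≠ 0`. By `loc` the set of the pairs `(c, (q, c', ρ))`, `c = tr ξ q`, with the properties of `loc` for `m = k ξ` is dense below `tr ξ p`: let `A` be a maximal antichain with data
(`exists_anti`, restricted: first components `≤ tr ξ p`), `w*` with `PLe k w* (tr ξ p)` which captures it (hypothesis `hcap`, which is applied to this antichain), `C ⊆ A` countable (`Anti.cap`), `exists_mix`. `PLe k r p`: `ple_of` with `ξ`; at `ξ`: `TLe m`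
(the tree of `r` at `ξ` is that of `q`); above `ξ`: `k η = 0`. `ρ`-covering: `v' ≤ q`, then below some `ρ r`. For `LP` the data of the antichain are needed: the second statement. -/

namespace Pool.Agent.Lib.MP_011f3a_lc.LM

variable {Ω : Type} [LinearOrder Ω] [WellFoundedLT Ω] {md : Md} {ζ ξ η : Ω} {I : Type} {Φ : I → Cn Ω md ζ → Prop}

/-- the data attached to the elements of the antichain: a condition and a function `c` -/
def StepD (Φ : I → Cn Ω md ζ → Prop) (p : Cn Ω md ζ) (m : ℕ) (x : Cn Ω md ξ × (Cn Ω md ζ × (List ℕ → I))) : Prop :=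
  x.2.1 ≤ p ∧ x.1 = tr ξ x.2.1 ∧ (FA (tr ξ x.2.1) fun G => TLe m (ev (x.2.1.co ξ) G) (ev (p.co ξ) G)) ∧
    ∃ ρ : List ℕ → Cn Ω md ζ, (∀ r ∈ KS m, Φ (x.2.2 r) (ρ r)) ∧ ∀ v ≤ x.2.1, ∃ v' ≤ v, ∃ r ∈ KS m, v' ≤ ρ r

theorem exists_stepD (hξ : ξ < ζ) (hP : Phi Φ) (hC : CW md ξ 0) (p : Cn Ω md ζ) (hn : FA (tr ξ p) fun G => Nm (ev (p.co ξ) G))
    (m : ℕ) (hm : 0 < m) : ∃ A : Set (Cn Ω md ξ × (Cn Ω md ζ × (List ℕ → I))), (∀ x ∈ A, StepD Φ p m x) ∧ Anti (tr ξ p) A := by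
  obtain ⟨A, hA, hA'⟩ := exists_anti (w := tr ξ p)
    {x : Cn Ω md ξ × (Cn Ω md ζ × (List ℕ → I)) | StepD Φ p m x} (fun w hw => by
      obtain ⟨q, hq, hqw, hF, c, ρ, h1, h2⟩ := loc hξ hP hC p hn m hm w hw
      exact ⟨(tr ξ q, (q, c)), ⟨hq, rfl, hF, ρ, h1, h2⟩, hqw⟩)
  exact ⟨A, fun x hx => hA hx, hA'⟩

theorem step_mix (hξ : ξ < ζ) (p : Cn Ω md ζ) {A : Set (Cn Ω md ξ × (Cn Ω md ζ × (List ℕ → I)))} {k : Ω →₀ ℕ}
    (hk : ∀ η, ξ < η → η < ζ → k η = 0) (hD : ∀ x ∈ A, StepD Φ p (k ξ) x) (hA : Anti (tr ξ p) A)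
    (w : Cn Ω md ξ) (hw : PLe k w (tr ξ p)) (hc : Cap w {c | ∃ x ∈ A, c ≤ x.1}) :
    ∃ r : Cn Ω md ζ, PLe k r p ∧ tr ξ r = w ∧ (∀ v ≤ r, ∃ v' ≤ v, ∃ x ∈ A, tr ξ v' ≤ x.1 ∧ v' ≤ x.2.1) ∧
      ∃ C ⊆ A, C.Countable ∧ ∀ v ≤ r, ∃ v' ≤ v, ∃ x ∈ C, tr ξ v' ≤ x.1 ∧ v' ≤ x.2.1 := by
  obtain ⟨C, hCA, hCc, hCp⟩ := hA.cap hw.le hc
  obtain ⟨r, hr1, hr2, _, hr4, hr5⟩ := exists_mix hξ.le p w hw.le
    (fun y : Cn Ω md ζ × (List ℕ → I) => y.1) C hCc
    (fun x hx y hy hne => hA.inc x (hCA hx) y (hCA hy) hne) hCp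
    (fun x hx => ⟨(hD x (hCA hx)).2.1.le, (hD x (hCA hx)).1⟩)
  refine ⟨r, ple_of hξ.le (by rw [hr1]; exact hw) fun η hη hηζ => ?_, hr1, fun v hv => ?_, C, hCA, hCc,
    fun v hv => ?_⟩
  · rcases hη.eq_or_lt with rfl | hη'
    · have h1 : FA (tr ξ r) fun G => ∀ x : C, tr ξ x.1.2.1 ∈ G.car →
          TLe (k ξ) (ev (x.1.2.1.co ξ) G) (ev (p.co ξ) G) := by
        have := hCc.to_subtype
        exact FA.all fun x => (hD x.1 (hCA x.2)).2.2.1.cond _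
      refine FA.imp₂ (hr5 ξ le_rfl hξ) h1 fun G _ h2 h3 => ?_
      obtain ⟨x, hx, _, hxG, he⟩ := h2
      rw [he]
      exact h3 ⟨x, hx⟩ hxG
    · rw [hk η hη' hηζ]
      exact (Cn.le_iff.1 hr2 η hηζ).imp fun G _ h => tle_zero.2 h
  · obtain ⟨v', hv', x, hx, h1, h2⟩ := hr4 v hv
    exact ⟨v', hv', x, hCA hx, h1, h2⟩
  · obtain ⟨v', hv', x, hx, h1, h2⟩ := hr4 v hv
    exact ⟨v', hv', x, hx, h1, h2⟩

end Pool.Agent.Lib.MP_011f3a_lc.LM

/-! # The induction for `CW` (module D-CAPS)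

`cap_one`: one open set `D`, dense below `p`. If `k` vanishes below `ζ`: take an element of `D` below `p` (`ple_of_le`). Otherwise let `ξ < ζ` be the last coordinate `< ζ` with `k ξ ≠ 0`; `Φ` (index type `Unit`): `Φ q` iff `Cap q D'`, where `D' = D ∪ {q | Inc q p}` is
open dense; then `exists_stepD`, `CW md ξ k` for one set, `step_mix` and countable unions. In `Cap p' D'` the elements incompatible with `p` are not needed. `cw_all`: strong induction on `ζ`: first `cap_one` for all `k`, then `fusion_all` with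
`Φ n q = Cap q (D n)` (`Φ` for conditions `≤ p` only: use `Φ n q := q ≤ p → Cap q (D n)`; for `q ≤ p` the set `D n` is dense below `q`). -/

namespace Pool.Agent.Lib.MP_011f3a_lc.LM

variable {Ω : Type} [LinearOrder Ω] [WellFoundedLT Ω] {md : Md} {ζ ξ η : Ω}

theorem phi_cap (D : Set (Cn Ω md ζ)) (hD : Opn D) (hd : Dns D) : Phi fun (_ : Unit) q => Cap q D where
  fin := inferInstance
  mono := fun _ _ _ hqp h => h.mono hqp
  glue := fun _ r ρ h hr => by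
    choose C hC1 hC2 hC3 using h
    refine ⟨⋃ i, C i, Set.countable_iUnion hC1, Set.iUnion_subset hC2, fun q hq => ?_⟩
    obtain ⟨q', hq', i, hi⟩ := hr q hq
    obtain ⟨s, hs, c, hc, hsc⟩ := hC3 i q' hi
    exact ⟨s, hs.trans hq', c, Set.mem_iUnion.2 ⟨i, hc⟩, hsc⟩
  dense := fun p => by
    have := hD
    obtain ⟨q, hq, hqD⟩ := hd p
    exact ⟨q, hq, (), {q}, Set.countable_singleton q, Set.singleton_subset_iff.2 hqD,
      fun s hs => ⟨s, le_rfl, q, rfl, hs⟩⟩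

private theorem CapS_opn {D : Set (Cn Ω md ζ)} (hD : Opn D) (p : Cn Ω md ζ) :
    Opn (D ∪ {q | Inc q p}) := by
  rintro a (ha | ha) b hb
  · exact Or.inl (hD a ha b hb)
  · exact Or.inr fun r hr h => ha r (hr.trans hb) h

private theorem CapS_dns {D : Set (Cn Ω md ζ)} {p : Cn Ω md ζ} (hd : DnsB D p) :
    Dns (D ∪ {q | Inc q p}) := by
  intro a
  by_cases h : Inc a p
  · exact ⟨a, le_rfl, Or.inr h⟩
  · unfold Inc at h
    push Not at h
    obtain ⟨r, hr, hrp⟩ := h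
    obtain ⟨s, hs, hsD⟩ := hd r hrp
    exact ⟨s, hs.trans hr, Or.inl hsD⟩

private theorem CapS_cap {D : Set (Cn Ω md ζ)} {p q : Cn Ω md ζ} (hq : q ≤ p)
    (h : Cap q (D ∪ {q | Inc q p})) : Cap q D := by
  obtain ⟨C, hC1, hC2, hC3⟩ := h
  refine ⟨C ∩ D, hC1.mono Set.inter_subset_left, Set.inter_subset_right, fun s hs => ?_⟩
  obtain ⟨r, hr, c, hc, hrc⟩ := hC3 s hs
  rcases hC2 hc with h | h
  · exact ⟨r, hr, c, ⟨hc, h⟩, hrc⟩
  · exact absurd (hr.trans (hs.trans hq)) (h r hrc)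

theorem cap_one (hi : ∀ ξ < ζ, ∀ k, CW md ξ k) (k : Ω →₀ ℕ) (p : Cn Ω md ζ) (hn : NR p) (D : Set (Cn Ω md ζ)) (hD : Opn D)
    (hd : DnsB D p) : ∃ p', PLe k p' p ∧ Cap p' D := by
  classical
  by_cases hk0 : ∀ η < ζ, k η = 0
  · obtain ⟨v, hv, hvD⟩ := hd p le_rfl
    exact ⟨v, ple_of_le hv hk0, {v}, Set.countable_singleton v, Set.singleton_subset_iff.2 hvD,
      fun s hs => ⟨s, le_rfl, v, rfl, hs⟩⟩
  · push Not at hk0
    obtain ⟨η0, hη0, hkη0⟩ := hk0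
    have hne : (k.support.filter (· < ζ)).Nonempty :=
      ⟨η0, Finset.mem_filter.2 ⟨Finsupp.mem_support_iff.2 hkη0, hη0⟩⟩
    obtain ⟨ξ, hξm, hξmax⟩ := Finset.exists_max_image _ (fun η => η) hne
    obtain ⟨hξs, hξ⟩ := Finset.mem_filter.1 hξm
    have hkξ : k ξ ≠ 0 := Finsupp.mem_support_iff.1 hξs
    have hk : ∀ η, ξ < η → η < ζ → k η = 0 := by
      intro η h1 h2
      by_contra h3
      exact not_lt.2 (hξmax η (Finset.mem_filter.2 ⟨Finsupp.mem_support_iff.2 h3, h2⟩)) h1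
    have hphi := phi_cap (D ∪ {q | Inc q p}) (CapS_opn hD p) (CapS_dns hd)
    obtain ⟨A, hA1, hA2⟩ := exists_stepD hξ hphi (hi ξ hξ 0) p (hn ξ hξ) (k ξ)
      (Nat.pos_of_ne_zero hkξ)
    obtain ⟨w, hw, hcap⟩ := hi ξ hξ k (tr ξ p) (fun _ => {c | ∃ x ∈ A, c ≤ x.1})
      (fun _ c hc c' hc' => by
        obtain ⟨x, hx, hcx⟩ := hc
        exact ⟨x, hx, hc'.trans hcx⟩)
      (fun _ q hq => by
        obtain ⟨r, hr, x, hx, hrx⟩ := hA2.pre q hq
        exact ⟨r, hr, x, hx, hrx⟩)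
    obtain ⟨r, hr, _, _, C, hCA, hCc, hCp⟩ := step_mix hξ p hk hA1 hA2 w hw (hcap 0)
    refine ⟨r, hr, CapS_cap hr.le ?_⟩
    have hx : ∀ x : C, ∃ B : Set (Cn Ω md ζ), B.Countable ∧ B ⊆ D ∪ {q | Inc q p} ∧
        ∀ v ≤ x.1.2.1, ∃ v' ≤ v, ∃ b ∈ B, v' ≤ b := by
      intro x
      obtain ⟨_, _, _, ρ, h1, h2⟩ := hA1 x.1 (hCA x.2)
      choose! B hB1 hB2 hB3 using h1
      refine ⟨⋃ s ∈ KS (k ξ), B s, ?_, ?_, fun v hv => ?_⟩
      · exact Set.Countable.biUnion (KS (k ξ)).countable_toSet fun s hs => hB1 s hs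
      · exact Set.iUnion₂_subset fun s hs => hB2 s hs
      · obtain ⟨v', hv', s, hs, hvs⟩ := h2 v hv
        obtain ⟨v'', hv'', b, hb, hvb⟩ := hB3 s hs v' hvs
        exact ⟨v'', hv''.trans hv', b, Set.mem_iUnion₂.2 ⟨s, hs, hb⟩, hvb⟩
    choose B hB1 hB2 hB3 using hx
    have := hCc.to_subtype
    refine ⟨⋃ x, B x, Set.countable_iUnion hB1, Set.iUnion_subset hB2, fun v hv => ?_⟩
    obtain ⟨v', hv', x, hxC, _, hvx⟩ := hCp v hv
    obtain ⟨v'', hv'', b, hb, hvb⟩ := hB3 ⟨x, hxC⟩ v' hvx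
    exact ⟨v'', hv''.trans hv', b, Set.mem_iUnion.2 ⟨⟨x, hxC⟩, hb⟩, hvb⟩

theorem cw_all (ζ : Ω) (k : Ω →₀ ℕ) : CW md ζ k := by
  induction ζ using WellFoundedLT.induction generalizing k with
  | ind ζ ih =>
    intro p D hD hd
    obtain ⟨q, hq, _, hq'⟩ := fusion_all (fun n q => Cap q (D n ∪ {q | Inc q p}))
      (fun n p' q' hq' h => h.mono hq')
      (fun n k' p' hp' => cap_one (fun ξ hξ k => ih ξ hξ k) k' p' hp' _ (CapS_opn (hD n) p)
        (fun a _ => by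
          obtain ⟨b, hb, hb'⟩ := CapS_dns (hd n) a
          exact ⟨b, hb, hb'⟩)) k p
    exact ⟨q, hq, fun n => CapS_cap hq.le (hq' n)⟩

end Pool.Agent.Lib.MP_011f3a_lc.LM
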