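import Pool.Agent.Lib.MP_011f3a_lc.LM.A.TreeC0
import Pool.Agent.Lib.MP_011f3a_lc.LM.B.Amal
import Pool.Agent.Lib.MP_011f3a_lc.LM.B.TLe
import Pool.Agent.Lib.MP_011f3a_lc.LM.D.Defs
import Pool.Agent.Lib.MP_011f3a_lc.LM.I.CoB

/-! # Basic facts about the fusion orders (module D-PLE)

`exists_norm`: `exists_mk` with `N ξ = mkn (nrm (ev (p.co ξ) G))` (full if `p(ξ)` is full, `Nm.univ`, `nrm_of_nm`); `TLe m (nrm T) T` for all `m` because `nrm T = T` for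
normal `T`. -/

namespace Pool.Agent.Lib.MP_011f3a_lc.LM

variable {Ω : Type} [LinearOrder Ω] [WellFoundedLT Ω] {md : Md} {ζ ξ η : Ω} {k k' : Ω →₀ ℕ} {p p' p'' : Cn Ω md ζ}

theorem PLe.le (h : PLe k p' p) : p' ≤ p :=
  Cn.le_iff.2 fun ξ hξ => (h ξ hξ).imp fun _ _ hG => hG.sub

theorem PLe.refl (k : Ω →₀ ℕ) (p : Cn Ω md ζ) : PLe k p p :=
  fun _ _ => FA.of_forall fun _ _ => TLe.refl _ _

theorem PLe.trans (h : PLe k p'' p') (h' : PLe k p' p) : PLe k p'' p := fun ξ hξ =>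
  (h ξ hξ).imp₂ ((h' ξ hξ).mono (tr_mono h.le ξ)) fun _ _ h1 h2 => TLe.trans h1 h2

theorem PLe.mono (h : PLe k p' p) (hk : ∀ ξ < ζ, k' ξ ≤ k ξ) : PLe k' p' p := fun ξ hξ =>
  (h ξ hξ).imp fun _ _ h1 => TLe.mono h1 (hk ξ hξ)

theorem ple_of_le (h : p' ≤ p) (hk : ∀ ξ < ζ, k ξ = 0) : PLe k p' p := fun ξ hξ => by
  rw [hk ξ hξ]
  exact (Cn.le_iff.1 h ξ hξ).imp fun _ _ h1 => tle_zero.2 h1

theorem PLe.tr (h : PLe k p' p) (ξ : Ω) : PLe k (tr ξ p') (tr ξ p) := by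
  intro η hη
  rw [co_tr p' hη, co_tr p hη, tr_tr p' hη.le]
  by_cases hζ : η < ζ
  · exact h η hζ
  · rw [Cn.co_of_le p' (not_lt.1 hζ), Cn.co_of_le p (not_lt.1 hζ)]
    exact FA.of_forall fun _ _ => TLe.refl _ _

/-- below `ξ` and from `ξ` on -/
theorem ple_of (hξ : ξ ≤ ζ) (h : PLe k (LM.tr ξ p') (LM.tr ξ p))
    (h' : ∀ η, ξ ≤ η → η < ζ → FA (LM.tr η p') fun G => TLe (k η) (ev (p'.co η) G) (ev (p.co η) G)) : PLe k p' p := by
  intro η hη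
  by_cases h1 : η < ξ
  · have h2 := h η h1
    rw [co_tr p' h1, co_tr p h1, tr_tr p' h1.le] at h2
    exact h2
  · exact h' η (not_lt.1 h1) hη

end Pool.Agent.Lib.MP_011f3a_lc.LM

/-! # Normalization of conditions (module D-PNORM)

`exists_mk` with `N ξ = mkn (nrm (ev (p.co ξ) G))` (full if `p(ξ)` is full, `Nm.univ`, `nrm_of_nm`, `mkn_univ`); `TLe m (nrm T) T` for all `m` because `nrm T = T` for normal `T`. -/

namespace Pool.Agent.Lib.MP_011f3a_lc.LM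

variable {Ω : Type} [LinearOrder Ω] [WellFoundedLT Ω] {md : Md} {ζ ξ η : Ω} {k k' : Ω →₀ ℕ} {p p' p'' : Cn Ω md ζ}

private theorem pnorm_full {p : Cn Ω md ζ} (h : p.co ξ = full _ _) :
    (mkn fun G => nrm (ev (p.co ξ) G)) = full (Cn Ω md ξ) (List ℕ) := by
  refine mkn_univ fun G => ?_
  rw [h, ev_full, nrm_of_nm Nm.univ]

private theorem pnorm_ev (p : Cn Ω md ζ) (ξ : Ω) (w : Cn Ω md ξ) :
    FA w fun G => ev (mkn fun G => nrm (ev (p.co ξ) G)) G = nrm (ev (p.co ξ) G) :=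
  bt_ev_mkn (bt_nrm (bt_ev (p.co ξ))) w

private theorem pnorm_le (p : Cn Ω md ζ) (ξ : Ω) : ∀ w : Cn Ω md ξ,
    (∀ η < ξ, w.co η = mkn fun G => nrm (ev (p.co η) G)) → w ≤ LM.tr ξ p := by
  induction ξ using WellFoundedLT.induction with
  | ind ξ ih =>
    intro w hw
    refine Cn.le_iff.2 fun η hη => ?_
    have h1 : LM.tr η w ≤ LM.tr η p := by
      refine ih η hη (LM.tr η w) fun θ hθ => ?_
      rw [co_tr w hθ]
      exact hw θ (hθ.trans hη)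
    rw [hw η hη, co_tr p hη]
    refine (pnorm_ev p η (LM.tr η w)).imp₂ ((p.good η).mono h1) fun G _ h2 h3 => ?_
    rw [h2]
    exact nrm_subset h3

theorem exists_norm (p : Cn Ω md ζ) : ∃ p' : Cn Ω md ζ, (∀ k, PLe k p' p) ∧ NR p' ∧ p'.supp ⊆ p.supp ∧
    ∀ ξ < ζ, FA (LM.tr ξ p') fun G => Nm (ev (p.co ξ) G) → ev (p'.co ξ) G = ev (p.co ξ) G := by
  obtain ⟨p', hp'⟩ := exists_mk (ζ := ζ) (md := md) (fun ξ => mkn fun G => nrm (ev (p.co ξ) G))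
    (p.supp_countable.mono fun ξ hξ h => hξ.2 (pnorm_full h))
    (fun ξ hξ w hw => by
      refine (pnorm_ev p ξ w).imp₂ ((p.good ξ).mono (pnorm_le p ξ w hw)) fun G _ h2 h3 => ?_
      rw [h2]
      exact nrm_tc h3)
  have hle : ∀ ξ ≤ ζ, LM.tr ξ p' ≤ LM.tr ξ p := fun ξ hξ => pnorm_le p ξ _ fun η hη => by
    rw [co_tr p' hη]
    exact hp' η (hη.trans_le hξ)
  have hev : ∀ ξ < ζ, FA (LM.tr ξ p') fun G => ev (p'.co ξ) G = nrm (ev (p.co ξ) G) ∧ TC md (ev (p.co ξ) G) :=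
    fun ξ hξ => by
      rw [hp' ξ hξ]
      exact (pnorm_ev p ξ (LM.tr ξ p')).and ((p.good ξ).mono (hle ξ hξ.le))
  refine ⟨p', fun k ξ hξ => ?_, fun ξ hξ => ?_, fun ξ hξ h => ?_, fun ξ hξ => ?_⟩
  · refine (hev ξ hξ).imp fun G _ h => ?_
    rw [h.1]
    exact ⟨nrm_subset h.2, fun r _ hn => by rw [nrm_of_nm hn]; exact ⟨hn, fun a ha => ha⟩⟩
  · refine (hev ξ hξ).imp fun G _ h => ?_
    rw [h.1]
    exact nrm_nm h.2
  · exact hξ ((hp' ξ (p'.supp_lt ξ hξ)).trans (pnorm_full h))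
  · refine (hev ξ hξ).imp fun G _ h hn => ?_
    rw [h.1, nrm_of_nm hn]

theorem NR.tr (h : NR p) (ξ : Ω) : NR (LM.tr ξ p) := by
  intro η hη
  rw [co_tr p hη, tr_tr p hη.le]
  by_cases hζ : η < ζ
  · exact h η hζ
  · rw [Cn.co_of_le p (not_lt.1 hζ)]
    exact FA.of_forall fun G _ => by rw [ev_full]; exact Nm.univ

/-- the coordinates from `ξ` on are not changed -/
theorem NR.of_join {r : Cn Ω md ζ} (h : NR p) (hr : r ≤ p) (hw : NR (LM.tr ξ r)) (h' : ∀ η, ξ ≤ η → r.co η = p.co η) :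
    NR r := by
  intro η hη
  by_cases h1 : η < ξ
  · have h2 := hw η h1
    rw [co_tr r h1, tr_tr r h1.le] at h2
    exact h2
  · rw [h' η (not_lt.1 h1)]
    exact (h η hη).mono (tr_mono hr η)

/-- lower part replaced by a part which is smaller in the order `≤_k` -/
theorem ple_join {r : Cn Ω md ζ} (hξ : ξ ≤ ζ) (h : PLe k (LM.tr ξ r) (LM.tr ξ p)) (h' : ∀ η, ξ ≤ η → r.co η = p.co η) :
    PLe k r p := by
  refine ple_of hξ h fun η hη _ => ?_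
  rw [h' η hη]
  exact FA.of_forall fun _ _ => TLe.refl _ _

end Pool.Agent.Lib.MP_011f3a_lc.LM
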